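import Pool.Agent.N993.WV.Stm

set_option autoImplicit false

/-!
# Project WV (helper993), TAIL (helper700): few words have few letters in a given set
-/

namespace Pool.Agent.N700.WV

open Pool.Agent.N993.WV

theorem del_cons {n : ℕ} (Y : Finset (Fin n)) (a : Fin n) {ℓ : ℕ} (v : Fin ℓ → Fin n) :
    (del Y (List.ofFn (Fin.cons a v : Fin (ℓ + 1) → Fin n))).length =
      (del Y (List.ofFn v)).length + if a ∈ Y then 1 else 0 := by
  have h : List.ofFn (Fin.cons a v : Fin (ℓ + 1) → Fin n) = a :: List.ofFn v := by
    rw [List.ofFn_succ]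
    simp
  rw [h]
  unfold del
  by_cases ha : a ∈ Y
  · simp [ha]
  · simp [ha]

theorem t_tail : S_TAIL := by
  intro n ℓ K Y hY
  have hn : 2 ≤ n := by
    have := Finset.card_le_univ Y
    rw [Fintype.card_fin] at this
    omega
  induction ℓ generalizing K with
  | zero =>
    rcases Nat.eq_zero_or_pos K with hK | hK
    · subst hK
      simp
    · have h1 : Nat.card {w : Fin 0 → Fin n // (del Y (List.ofFn w)).length < K} ≤
          Nat.card (Fin 0 → Fin n) :=
        Nat.card_le_card_of_injective Subtype.val Subtype.val_injective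
      have h2 : Nat.card (Fin 0 → Fin n) = 1 := by simp
      have h3 : 1 ≤ 2 ^ K * (n - 1) ^ 0 := by
        rw [pow_zero, mul_one]
        exact Nat.one_le_two_pow
      omega
  | succ ℓ ih =>
    rcases Nat.eq_zero_or_pos K with hK | hK
    · subst hK
      simp
    · obtain ⟨K, rfl⟩ : ∃ K', K = K' + 1 := ⟨K - 1, by omega⟩
      obtain ⟨A, hA⟩ : ∃ A : ℕ, A = 2 ^ K * (n - 1) ^ ℓ := ⟨_, rfl⟩
      have h1 : Nat.card {w : Fin (ℓ + 1) → Fin n // (del Y (List.ofFn w)).length < K + 1} ≤
          Nat.card (Σ a : Fin n, {v : Fin ℓ → Fin n //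
            (del Y (List.ofFn (Fin.cons a v : Fin (ℓ + 1) → Fin n))).length < K + 1}) := by
        refine Nat.card_le_card_of_injective (fun w => ⟨w.1 0, ⟨Fin.tail w.1, by
          rw [Fin.cons_self_tail]
          exact w.2⟩⟩) ?_
        refine Function.LeftInverse.injective (g := fun p => ⟨Fin.cons p.1 p.2.1, p.2.2⟩) ?_
        intro w
        exact Subtype.ext (Fin.cons_self_tail w.1)
      have h2 : ∀ a : Fin n, Nat.card {v : Fin ℓ → Fin n //
            (del Y (List.ofFn (Fin.cons a v : Fin (ℓ + 1) → Fin n))).length < K + 1} ≤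
          if a ∈ Y then A else 2 * A := by
        intro a
        simp only [del_cons]
        by_cases ha : a ∈ Y
        · simp only [if_pos ha, Nat.add_lt_add_iff_right]
          rw [hA]
          exact ih K
        · simp only [if_neg ha, Nat.add_zero]
          have h3 := ih (K + 1)
          rw [pow_succ] at h3
          rw [hA]
          calc _ ≤ 2 ^ K * 2 * (n - 1) ^ ℓ := h3
            _ = _ := by ring
      rw [Nat.card_sigma] at h1
      have h3 : (∑ a : Fin n, if a ∈ Y then A else 2 * A) + Y.card * A = n * (2 * A) := by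
        have h4 : Y.card * A = ∑ a : Fin n, if a ∈ Y then A else 0 := by
          rw [Finset.sum_ite_mem, Finset.univ_inter, Finset.sum_const, smul_eq_mul]
        rw [h4, ← Finset.sum_add_distrib]
        have h5 : ∀ a : Fin n, ((if a ∈ Y then A else 2 * A) + if a ∈ Y then A else 0) = 2 * A := by
          intro a
          by_cases ha : a ∈ Y
          · simp only [if_pos ha]
            ring
          · simp only [if_neg ha]
            ring
        rw [Finset.sum_congr rfl fun a _ => h5 a, Finset.sum_const, Finset.card_univ,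
          Fintype.card_fin, smul_eq_mul]
      have h4 := Finset.sum_le_sum fun (a : Fin n) (_ : a ∈ Finset.univ) => h2 a
      have h5 : 2 * A ≤ Y.card * A := Nat.mul_le_mul_right A hY
      obtain ⟨k, rfl⟩ : ∃ k, n = k + 1 := ⟨n - 1, by omega⟩
      have h6 : (k + 1) * (2 * A) = k * (2 * A) + 2 * A := by ring
      have h7 : 2 ^ (K + 1) * (k + 1 - 1) ^ (ℓ + 1) = k * (2 * A) := by
        rw [hA, Nat.add_sub_cancel]
        ring
      omega

end Pool.Agent.N700.WV
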